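import Mathlib
import Pool.Agent.H7.Corona

set_option autoImplicit false

namespace Pool.Agent.Results.MP_7e5e3f_co.Q1

open SimpleGraph Pool.Agent.H7.Corona Set

variable {V : Type} [Finite V] {G : SimpleGraph V}

lemma le_alpha {X : Set V} (h : G.IsIndepSet X) : X.ncard ≤ G.indepNum := by
  lift X to Finset V using X.toFinite
  rw [ncard_coe_finset]
  exact h.card_le_indepNum

lemma hit : ∃ (c : V → Bool) (T : Set V), T.ncard ≤ (oddCycles G).ncard ∧
    ∀ u v, G.Adj u v → u ∉ T → v ∉ T → c u ≠ c v := by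
  cases isEmpty_or_nonempty V
  · exact ⟨fun _ => true, ∅, by simp, fun u => isEmptyElim u⟩
  obtain ⟨F, hF, ha, hr⟩ := G.exists_isAcyclic_reachable_eq_le
  let C : F.Coloring Bool := F.recolorOfEquiv finTwoEquiv ha.coloringTwo
  haveI : Nonempty (Sym2 V) := ⟨Sym2.diag (Classical.arbitrary V)⟩
  obtain ⟨pick, hk⟩ : ∃ pick : Set (Sym2 V) → V, ∀ E : Set (Sym2 V), (∃ e ∈ E, e ∉ F.edgeSet) →
      ∃ e ∈ E, e ∉ F.edgeSet ∧ pick E ∈ e :=
    ⟨fun E => (Classical.epsilon fun e => e ∈ E ∧ e ∉ F.edgeSet).out.1, fun E h =>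
      ⟨_, (Classical.epsilon_spec h).1, (Classical.epsilon_spec h).2, Sym2.out_fst_mem _⟩⟩
  refine ⟨C, pick '' oddCycles G, ncard_image_le, fun u v h hu hv e => ?_⟩
  have hn : s(u, v) ∉ F.edgeSet := fun q => C.valid q e
  obtain ⟨p, hp⟩ := (show F.Reachable v u from hr ▸ h.symm.reachable).exists_isPath
  have hE : {e | e ∈ s(u, v) :: p.edges} ∈ oddCycles G := by
    refine ⟨u, Walk.cons h (p.mapLe hF), (Walk.cons_isCycle_iff _ _).2 ⟨hp.mapLe hF, ?_⟩, ?_, ?_⟩
    · rw [Walk.edges_mapLe_eq_edges]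
      exact fun q => hn (p.edges_subset_edgeSet q)
    · have := (C.even_length_iff_congr p).2 (by rw [e])
      simpa [Walk.mapLe, Nat.odd_add_one] using this
    · rw [Walk.edges_cons, Walk.edges_mapLe_eq_edges]
  obtain ⟨f, f1, f2, f3⟩ := hk {e | e ∈ s(u, v) :: p.edges} ⟨s(u, v), List.mem_cons_self, hn⟩
  rcases List.mem_cons.1 f1 with rfl | q
  · rcases Sym2.mem_iff.1 f3 with r | r
    · exact hu ⟨_, hE, r⟩
    · exact hv ⟨_, hE, r⟩
  · exact f2 (p.edges_subset_edgeSet q)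

lemma ker_sub {S : Finset V} (hS : G.IsMaximumIndepSet S) : ker G ⊆ S := by
  obtain ⟨A, hA, hm⟩ := exists_max_image {X | G.IsIndepSet X} (dif G) (toFinite _)
    ⟨∅, pairwise_empty _⟩
  refine fun v hv => (hv (A ∩ S) ⟨hA.mono inter_subset_left, fun Y hY => (hm Y hY).trans ?_⟩).2
  have h1 : G.IsIndepSet ((S \ nb G A) ∪ (A \ S)) := by
    rintro x (hx | hx) y (hy | hy) hxy a
    · exact hS.1 hx.1 hy.1 hxy a
    · exact hx.2 ⟨y, hy.1, a.symm⟩
    · exact hy.2 ⟨x, hx.1, a⟩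
    · exact hA hx.1 hy.1 hxy a
  have h2 := le_alpha h1
  rw [ncard_union_eq (disjoint_left.2 fun x a b => b.2 a.1), ← maximumIndepSet_card_eq_indepNum S hS,
    ← ncard_coe_finset] at h2
  have h3 := ncard_inter_add_ncard_sdiff_eq_ncard (S : Set V) (nb G A)
  have h4 := ncard_inter_add_ncard_sdiff_eq_ncard A S
  have h5 := ncard_inter_add_ncard_sdiff_eq_ncard (nb G A) S
  have h6 : (nb G (A ∩ S)).ncard ≤ (nb G A \ S).ncard := ncard_le_ncard
    fun x ⟨y, hy, a⟩ => ⟨⟨y, hy.1, a⟩, fun q => hS.1 hy.2 q a.ne a⟩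
  rw [inter_comm] at h5
  unfold dif
  omega

/-- `|corona G| + |ker G| ≤ 2 α(G) + k`, with `k` the number of odd cycles. -/
theorem result : ∀ (V : Type) [Finite V] (G : SimpleGraph V),
    (corona G).ncard + (ker G).ncard ≤ 2 * G.indepNum + (oddCycles G).ncard := by
  intro V _ G
  obtain ⟨c, T, hT, hc⟩ := hit (G := G)
  obtain ⟨S, hS⟩ := G.maximumIndepSet_exists
  let W : Bool → Set V := fun b => {v | c v = b ∧ v ∉ T ∧ v ∉ ker G ∧ v ∉ nb G (ker G)}
  have h1 : ∀ b, (W b).ncard + (ker G).ncard ≤ G.indepNum := fun b => by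
    rw [← ncard_union_eq (disjoint_left.2 fun x a b => a.2.2.1 b)]
    refine le_alpha ?_
    rintro x (hx | hx) y (hy | hy) hxy a
    · exact hc x y a hx.2.1 hy.2.1 (hx.1.trans hy.1.symm)
    · exact hx.2.2.2 ⟨y, hy, a.symm⟩
    · exact hy.2.2.2 ⟨x, hx, a⟩
    · exact hS.1 (ker_sub hS hx) (ker_sub hS hy) hxy a
  have h2 : corona G ⊆ ker G ∪ W true ∪ W false ∪ T := by
    rintro v ⟨R, hR, hv⟩
    have : v ∉ nb G (ker G) := fun ⟨x, hx, a⟩ => hR.1 (ker_sub hR hx) hv a.ne a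
    simp only [mem_union, W, mem_ofPred_eq]
    cases c v <;> tauto
  have h3 := ncard_le_ncard h2
  have h4 := ncard_union_le (ker G ∪ W true ∪ W false) T
  have h5 := ncard_union_le (ker G ∪ W true) (W false)
  have h6 := ncard_union_le (ker G) (W true)
  have := h1 true
  have := h1 false
  omega

end Pool.Agent.Results.MP_7e5e3f_co.Q1
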