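import Mathlib
import Pool.Agent.H7.Corona

set_option autoImplicit false

namespace Pool.Agent.Results.MP_7e5e3f_co.Q2

open SimpleGraph Pool.Agent.H7.Corona

variable {V : Type}

def Mat (G : SimpleGraph V) (M : Finset (Sym2 V)) : Prop :=
  (∀ e ∈ M, e ∈ G.edgeSet) ∧ ∀ e ∈ M, ∀ f ∈ M, e ≠ f → ∀ v, v ∈ e → v ∉ f

/-- the vertices missed by some maximum matching -/
def D (G : SimpleGraph V) : Set V :=
  {v | ∃ M, Mat G M ∧ (∀ M', Mat G M' → M'.card ≤ M.card) ∧ ∀ e ∈ M, v ∉ e}

/-- the largest number of pairwise vertex-disjoint odd cycles -/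
noncomputable def pack (G : SimpleGraph V) : ℕ :=
  sSup {m | ∃ f : Fin m → Σ v, G.Walk v v, (∀ i, (f i).2.IsCycle ∧ Odd (f i).2.length) ∧
    ∀ i j, i ≠ j → ∀ x ∈ (f i).2.support, x ∉ (f j).2.support}

instance (M : Finset (Sym2 (Fin 4))) : Decidable (Mat (⊤ : SimpleGraph (Fin 4)) M) :=
  inferInstanceAs (Decidable (_ ∧ _))

lemma cov : ∀ M : Finset (Sym2 (Fin 4)), Mat ⊤ M → 2 ≤ M.card → ∀ v, ∃ e ∈ M, v ∈ e := by
  decide +kernel

lemma a1 : (⊤ : SimpleGraph (Fin 4)).indepNum ≤ 1 := by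
  obtain ⟨s, hs⟩ := (⊤ : SimpleGraph (Fin 4)).exists_isNIndepSet_indepNum
  rw [← hs.card_eq]
  exact Finset.card_le_one.2 fun a ha b hb => by_contra fun h => hs.1 ha hb h h

lemma cor : corona (⊤ : SimpleGraph (Fin 4)) = Set.univ :=
  Set.eq_univ_of_forall fun v => ⟨{v}, ⟨by simp, fun t ht => ht.card_le_indepNum.trans a1⟩, by simp⟩

/-- Both variants of the inequality fail. -/
theorem result :
    (∃ (V : Type) (_ : Finite V) (G : SimpleGraph V),
      2 * G.indepNum + (oddCycles (G.induce (D G))).ncard < (corona G).ncard + (ker G).ncard) ∧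
    ∃ (V : Type) (_ : Finite V) (G : SimpleGraph V),
      2 * G.indepNum + pack G < (corona G).ncard + (ker G).ncard := by
  have c4 : (corona (⊤ : SimpleGraph (Fin 4))).ncard = 4 := by rw [cor, Set.ncard_univ]; simp
  have := a1
  refine ⟨⟨Fin 4, inferInstance, ⊤, ?_⟩, Fin 4, inferInstance, ⊤, ?_⟩
  · have : oddCycles ((⊤ : SimpleGraph (Fin 4)).induce (D ⊤)) = ∅ :=
      Set.eq_empty_of_forall_notMem fun E ⟨⟨v, M, h1, h2, h3⟩, _⟩ => by
        obtain ⟨e, he, hv⟩ := cov M h1 (le_trans (by decide) (h2 {s(0, 1), s(2, 3)} (by decide))) v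
        exact h3 e he hv
    rw [this, Set.ncard_empty]
    omega
  · have : pack (⊤ : SimpleGraph (Fin 4)) ≤ 1 := csSup_le' (by
      rintro m ⟨f, h1, h2⟩
      by_contra hm
      have k : ∀ i, 3 ≤ (f i).2.support.tail.toFinset.card := fun i => by
        rw [List.toFinset_card_of_nodup (h1 i).1.support_nodup]
        have := (h1 i).1.three_le_length
        simpa
      have d : Disjoint (f ⟨0, by omega⟩).2.support.tail.toFinset
          (f ⟨1, by omega⟩).2.support.tail.toFinset := Finset.disjoint_left.2 fun x a b =>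
        h2 _ _ (by simp) x (List.mem_of_mem_tail (List.mem_toFinset.1 a))
          (List.mem_of_mem_tail (List.mem_toFinset.1 b))
      have := Finset.card_le_univ ((f ⟨0, by omega⟩).2.support.tail.toFinset ∪
        (f ⟨1, by omega⟩).2.support.tail.toFinset)
      rw [Finset.card_union_of_disjoint d, Fintype.card_fin] at this
      have := k ⟨0, by omega⟩
      have := k ⟨1, by omega⟩
      omega)
    omega

end Pool.Agent.Results.MP_7e5e3f_co.Q2
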